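import Pool.Agent.H.MP_bc7fec_lc.B
import Pool.Agent.Lib.lead.CXNP

namespace Pool.Agent.H.MP_bc7fec_lc

open Relation Set Pool.Agent.Lib.CX Classical Function

variable {G : MG} {S : Set (ℕ × Bool)} {x y : ℕ}

def Dn (G : MG) : ℕ := (G.map (·.2.2.2.den)).prod
def ln (G : MG) (d : ℕ × Bool) : ℕ := (len G d).num.natAbs * (Dn G / (len G d).den)
def rv (d : ℕ × Bool) : ℕ × Bool := (d.1, !d.2)
def Dl (G : MG) : List (ℕ × Bool) := (List.range G.length ×ˢ [false, true]).filter fun d => d.2 → (lk G d.1).2.2.1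

theorem Dl_eq : {d | d ∈ Dl G} = bi G := by ext ⟨i, b⟩; cases b <;> simp [Dl, bi]
theorem rv_rv (d) : rv (rv d) = d := by simp [rv]
theorem tl_rv (d) : tl G (rv d) = hd G d := by obtain ⟨i, _ | _⟩ := d <;> rfl
theorem hd_rv (d) : hd G (rv d) = tl G d := by obtain ⟨i, _ | _⟩ := d <;> rfl
theorem Dn_pos : 0 < Dn G := List.prod_pos (List.forall_mem_map.2 fun e _ => e.2.2.2.pos)

theorem len_eq (hG : ∀ e ∈ G, 0 ≤ e.2.2.2) (d) : len G d = ln G d / Dn G := by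
  have h : 0 ≤ len G d ∧ (len G d).den ∣ Dn G := by
    unfold len lk
    rcases Nat.lt_or_ge d.1 G.length with q | q
    · rw [List.getD_eq_getElem _ _ q]
      exact ⟨hG _ (List.getElem_mem q), List.dvd_prod (List.mem_map_of_mem (List.getElem_mem q))⟩
    · simp [q]
  have := (Nat.cast_pos (α := ℚ)).2 (Dn_pos (G := G))
  rw [ln, Nat.cast_mul, Nat.cast_div h.2 (by simp), Nat.cast_natAbs, abs_of_nonneg (Rat.num_nonneg.2 h.1)]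
  field_simp
  exact Rat.mul_den_eq_num _

theorem wk_iff (hG : ∀ e ∈ G, 0 ≤ e.2.2.2) {q} : Wk (tl G) (hd G) (len G) S x y q ↔
    ∃ w : ℕ, Wk (tl G) (hd G) (ln G) S x y w ∧ q = w / Dn G := by
  refine ⟨fun e => ?_, ?_⟩
  · induction e with
    | nil => exact ⟨0, .nil, by simp⟩
    | snoc _ a ih => obtain ⟨w, i, rfl⟩ := ih; exact ⟨_, i.snoc a, by rw [len_eq hG]; push_cast; ring⟩
  · rintro ⟨w, e, rfl⟩
    induction e with
    | nil => simpa using .nil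
    | snoc _ a ih => rw [Nat.cast_add, add_div, ← len_eq hG]; exact ih.snoc a

theorem dist_iff (hG : ∀ e ∈ G, 0 ≤ e.2.2.2) {S'} (q : S' ⊆ S) {w} (hw : R (tl G) (hd G) S x y →
    IsLeast {w | Wk (tl G) (hd G) (ln G) S x y w} w) :
    dist G S' x y = dist G S x y ↔ (R (tl G) (hd G) S x y → Wk (tl G) (hd G) (ln G) S' x y w) := by
  have n := (Nat.cast_pos (α := ℚ)).2 (Dn_pos (G := G))
  have k1 : ∀ S w, IsLeast {w | Wk (tl G) (hd G) (ln G) S x y w} w → dist G S x y = ((w / Dn G : ℚ) : ℝ) := fun S w h => by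
    refine (iInf₂_le _ ((wk_iff hG).2 ⟨w, h.1, rfl⟩)).antisymm (le_iInf₂ fun p e => ?_)
    obtain ⟨v, f, rfl⟩ := (wk_iff hG).1 e
    exact EReal.coe_le_coe_iff.2 (Rat.cast_le.2 (div_le_div_of_nonneg_right (Nat.cast_le.2 (h.2 f)) n.le))
  have k2 : ∀ S, ¬ R (tl G) (hd G) S x y → dist G S x y = ⊤ := fun S h => iInf₂_eq_top.2 fun _ e => (h e.r).elim
  refine ⟨fun e h => ?_, fun h => ?_⟩
  · rw [k1 _ _ (hw h)] at e
    have h1 : R (tl G) (hd G) S' x y := by_contra fun m => EReal.coe_ne_top _ (e.symm.trans (k2 _ m))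
    have h2 := Nat.sInf_mem (h1.wk (l := ln G))
    rw [k1 _ _ ⟨h2, fun _ => Nat.sInf_le⟩] at e
    rwa [← Nat.cast_injective ((div_left_inj' n.ne').1 (Rat.cast_injective (EReal.coe_injective e)))]
  · by_cases m : R (tl G) (hd G) S x y
    · rw [k1 _ _ (hw m), k1 _ w ⟨h m, fun _ e => (hw m).2 (e.mono q)⟩]
    · rw [k2 _ m, k2 _ fun e => m (e.mono q)]

theorem orient {P Q : Set (ℕ × Bool)} (p : P ⊆ bi G) (q : Q ⊆ bi G) (c : ∀ d ∈ P, rv d ∉ Q) (x y z w : ℕ) : ∃ o,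
    (R (tl G) (hd G) P x y → R (tl G) (hd G) (ori G o ∩ P) x y) ∧
      (R (tl G) (hd G) Q z w → R (tl G) (hd G) (ori G o ∩ Q) z w) := by
  have k : ∀ P x y, ∃ P' ⊆ P, (R (tl G) (hd G) P x y → R (tl G) (hd G) P' x y) ∧ ∀ d ∈ P', rv d ∉ P' := fun P x y => by
    by_cases h : R (tl G) (hd G) P x y
    · obtain ⟨P', a, b, c, -⟩ := h.path tl_rv hd_rv
      exact ⟨P', a, fun _ => b, c⟩
    · exact ⟨∅, by simp [h]⟩
  obtain ⟨P', p1, p2, p3⟩ := k P x y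
  obtain ⟨Q', q1, q2, q3⟩ := k Q z w
  have s : P' ∪ Q' ⊆ ori G fun i => (i, true) ∈ P' ∪ Q' := by
    rintro ⟨i, b⟩ h
    have h1 := union_subset (p1.trans p) (q1.trans q) h
    refine ⟨h1.1, ?_⟩
    cases b
    · have : (i, true) ∉ P' ∪ Q' := by
        rintro (a | a) <;> rcases h with h | h
        exacts [p3 _ h a, c _ (p1 a) (q1 h), c _ (p1 h) (q1 a), q3 _ h a]
      simp only [this, decide_false, Bool.and_false]
    · simp only [h, h1.2 rfl, decide_true, Bool.and_true]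
  exact ⟨_, fun h => (p2 h).mono (subset_inter (subset_union_left.trans s) p1),
    fun h => (q2 h).mono (subset_inter (subset_union_right.trans s) q1)⟩

def Ti (G : MG) (δ : ℕ → ℕ) (s : ℕ) : Set (ℕ × Bool) :=
  {d ∈ bi G | R (tl G) (hd G) (bi G) s (tl G d) ∧ δ (hd G d) = δ (tl G d) + ln G d}

theorem pres_iff (a : Inp) {δ ε : ℕ → ℕ} (hδ : ∀ v, R (tl a.1.1) (hd a.1.1) (bi a.1.1) a.1.2.1 v →
      IsLeast {w | Wk (tl a.1.1) (hd a.1.1) (ln a.1.1) (bi a.1.1) a.1.2.1 v w} (δ v))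
    (hε : ∀ v, R (tl a.1.1) (hd a.1.1) (bi a.1.1) a.1.2.2 v →
      IsLeast {w | Wk (tl a.1.1) (hd a.1.1) (ln a.1.1) (bi a.1.1) a.1.2.2 v w} (ε v)) :
    Pres a ↔ (R (tl a.1.1) (hd a.1.1) (bi a.1.1) a.1.2.1 a.1.2.2 → R (tl a.1.1) (hd a.1.1) (bi a.1.1) a.1.2.2 a.1.2.1 →
      Gd (tl a.1.1) (hd a.1.1) (hd a.1.1) (tl a.1.1) (Ti a.1.1 δ a.1.2.1) (Ti a.1.1 ε a.1.2.2) rv
        a.1.2.1 a.1.2.2 a.1.2.1 a.1.2.2) := by
  obtain ⟨⟨G, s, t⟩, hG⟩ := a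
  have o1 : ∀ o, ori G o ⊆ bi G := fun o d h => ⟨h.1, fun e => (Bool.and_eq_true_iff.1 (h.2 ▸ e)).1⟩
  have o2 : ∀ o δ s, {d ∈ ori G o | R (tl G) (hd G) (bi G) s (tl G d) ∧ δ (hd G d) = δ (tl G d) + ln G d} =
    ori G o ∩ Ti G δ s := fun o δ s => Set.ext fun d => ⟨fun h => ⟨h.1, o1 o h.1, h.2⟩, fun h => ⟨h.1, h.2.2⟩⟩
  simp only [Pres, dist_iff hG (o1 _) (hδ _), dist_iff hG (o1 _) (hε _), tight hδ (o1 _), tight hε (o1 _), o2]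
  refine ⟨fun ⟨o, h1, h2⟩ a b => ⟨_, inter_subset_right, _, inter_subset_right, h1 a, (h2 b).swap, fun d e f => ?_⟩,
    fun h => ?_⟩
  · have := e.1.2.trans f.1.2.symm; simp [rv] at this
  have t1 := fun h => (tight hδ le_rfl).1 (hδ t h).1
  have t2 := fun h => (tight hε le_rfl).1 (hε s h).1
  obtain ⟨P, p, Q, q, h1, h2, c⟩ : ∃ P ⊆ Ti G δ s, ∃ Q ⊆ Ti G ε t, (R (tl G) (hd G) (bi G) s t → R (tl G) (hd G) P s t) ∧
      (R (tl G) (hd G) (bi G) t s → R (tl G) (hd G) Q t s) ∧ ∀ d ∈ P, rv d ∉ Q := by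
    by_cases a : R (tl G) (hd G) (bi G) s t
    · by_cases b : R (tl G) (hd G) (bi G) t s
      · obtain ⟨P, p, Q, q, h1, h2, c⟩ := h a b
        exact ⟨P, p, Q, q, fun _ => h1, fun _ => h2.swap, c⟩
      · exact ⟨_, le_rfl, ∅, empty_subset _, t1, (b · |>.elim), by simp⟩
    · exact ⟨∅, empty_subset _, _, le_rfl, (a · |>.elim), t2, by simp⟩
  obtain ⟨o, h3, h4⟩ := orient (p.trans (sep_subset _ _)) (q.trans (sep_subset _ _)) c s t t s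
  exact ⟨o, fun a => (h3 (h1 a)).mono (inter_subset_inter_right _ p), fun a => (h4 (h2 a)).mono (inter_subset_inter_right _ q)⟩

def rb (G : MG) (L : List (ℕ × Bool)) (x y : ℕ) : Bool := reachB (L.map fun d => (tl G d, hd G d), x, y)

theorem rb_iff {L} : rb G L x y ↔ R (tl G) (hd G) {d | d ∈ L} x y := by simp [rb, reachB_iff, R]

def Fb (G : MG) (L : List (ℕ × Bool)) (x z y w : ℕ) : Bool := rb G L x z ∧ rb G L w y ∧
  ∀ d ∈ L, rb G (L.filter (· ≠ d)) x z ∨ rb G (L.filter (· ≠ rv d)) w y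

theorem Fb_iff {L z w} : Fb G L x z y w ↔ Gd (tl G) (hd G) (hd G) (tl G) {d | d ∈ L} {d | d ∈ L} rv x z y w := by
  have e : ∀ d, {f | f ∈ L.filter (· ≠ d)} = {d | d ∈ L} \ {d} := fun d => by ext; simp
  simp only [Fb, decide_eq_true_eq, rb_iff, e]
  exact (two rv_rv tl_rv hd_rv).symm.trans ⟨fun ⟨P, a, Q, b, c, d, e⟩ => ⟨P, a, Q, b, c, d.swap, e⟩,
    fun ⟨P, a, Q, b, c, d, e⟩ => ⟨P, a, Q, b, c, d.swap, e⟩⟩

section
variable {α : Type} [Enc α] {G : α → MG} {L : α → List (ℕ × Bool)} {d : α → ℕ × Bool} {x y z w : α → ℕ}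
@[fun_prop] theorem pt_tl (h1 : PT G) (h2 : PT d) : PT fun a => tl (G a) (d a) := by unfold tl lk; fun_prop
@[fun_prop] theorem pt_hd (h1 : PT G) (h2 : PT d) : PT fun a => hd (G a) (d a) := by unfold hd lk; fun_prop
@[fun_prop] theorem pt_rv (h2 : PT d) : PT fun a => rv (d a) := by unfold rv; fun_prop
@[fun_prop] theorem pt_Dl (h1 : PT G) : PT fun a => Dl (G a) := by unfold Dl lk; fun_prop
@[fun_prop] theorem pt_ln (h1 : PT G) (h2 : PT d) : PT fun a => ln (G a) (d a) := by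
  have h : PT fun q : ℚ => (q.num, q.den) := PT.id.cast fun _ => rfl
  have h3 := h.fst
  have h4 := h.snd
  unfold ln Dn len lk; fun_prop
@[fun_prop] theorem pt_rb (h1 : PT G) (h2 : PT L) (h3 : PT x) (h4 : PT y) : PT fun a => rb (G a) (L a) (x a) (y a) := by
  unfold rb; fun_prop
@[fun_prop] theorem pt_Fb (h1 : PT G) (h2 : PT L) (h3 : PT x) (h4 : PT y) (h5 : PT z) (h6 : PT w) :
    PT fun a => Fb (G a) (L a) (x a) (z a) (y a) (w a) := by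
  unfold Fb; fun_prop
end

theorem main : InP Pres := by
  have h0 : PT fun a : Inp => a.1 := PT.val PT.id
  obtain ⟨δ, d1, d2⟩ := bf (α := Inp) (L := fun a => Dl a.1.1) (t := fun a => tl a.1.1) (h := fun a => hd a.1.1)
    (l := fun a => ln a.1.1) (s := fun a => a.1.2.1) (by fun_prop) (by fun_prop) (by fun_prop) (by fun_prop) (by fun_prop)
  obtain ⟨ε, e1, e2⟩ := bf (α := Inp) (L := fun a => Dl a.1.1) (t := fun a => tl a.1.1) (h := fun a => hd a.1.1)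
    (l := fun a => ln a.1.1) (s := fun a => a.1.2.2) (by fun_prop) (by fun_prop) (by fun_prop) (by fun_prop) (by fun_prop)
  simp only [Dl_eq] at d2 e2
  have k : ∀ (δ : Inp → ℕ → ℕ) (s : Inp → ℕ), (PT fun x : Inp × ℕ => δ x.1 x.2) → PT s → ∃ L : Inp → List (ℕ × Bool), PT L ∧
      ∀ a, {d | d ∈ L a} = Ti a.1.1 (δ a) (s a) := fun δ s h1 h2 =>
    ⟨fun a => (Dl a.1.1).filter fun d => rb a.1.1 (Dl a.1.1) (s a) (tl a.1.1 d) ∧
      δ a (hd a.1.1 d) = δ a (tl a.1.1 d) + ln a.1.1 d, by fun_prop, fun a => by ext; simp [Ti, rb_iff, ← Dl_eq]⟩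
  obtain ⟨L, l1, l2⟩ := k δ (·.1.2.1) d1 (by fun_prop)
  obtain ⟨M, m1, m2⟩ := k ε (·.1.2.2) e1 (by fun_prop)
  obtain ⟨ρ, r1, r2⟩ : ∃ ρ : Inp → ℕ → ℤ, (PT fun x : Inp × ℕ => ρ x.1 x.2) ∧ ∀ a v, ρ a v = δ a v - ε a v :=
    ⟨_, by fun_prop, fun _ _ => rfl⟩
  obtain ⟨N, n1, n2⟩ : ∃ N : Inp → List (ℕ × Bool), PT N ∧ ∀ a, N a = (L a).filter fun d => ρ a (tl a.1.1 d) = ρ a (hd a.1.1 d) :=
    ⟨_, by fun_prop, fun _ => rfl⟩
  obtain ⟨W, w1, w2⟩ : ∃ W : Inp → List ℕ, PT W ∧ ∀ a, W a = a.1.2.1 :: ((L a).map (hd a.1.1) ++ (M a).map (tl a.1.1)) :=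
    ⟨_, by fun_prop, fun _ => rfl⟩
  obtain ⟨E, c1, c2⟩ : ∃ E : Inp → List ((ℕ × ℕ) × ℕ × ℕ), PT E ∧ ∀ a p, p ∈ E a ↔ p ∈ (W a ×ˢ W a) ×ˢ W a ×ˢ W a ∧
      Mv (tl a.1.1) (hd a.1.1) (hd a.1.1) (tl a.1.1) {d | d ∈ L a} {d | d ∈ M a} rv (ρ a)
        (fun x z y w => Fb a.1.1 (N a) x z y w) p.1 p.2 :=
    ⟨fun a => ((W a ×ˢ W a) ×ˢ W a ×ˢ W a).filter fun p =>
      (ρ a p.1.1 < ρ a p.1.2 ∧ p.2.2 = p.1.2 ∧ ∃ d ∈ L a, tl a.1.1 d = p.1.1 ∧ hd a.1.1 d = p.2.1) ∨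
      (ρ a p.1.2 < ρ a p.1.1 ∧ p.2.1 = p.1.1 ∧ ∃ d ∈ M a, hd a.1.1 d = p.1.2 ∧ tl a.1.1 d = p.2.2) ∨
      (ρ a p.1.1 = ρ a p.1.2 ∧ ρ a p.1.1 < ρ a p.2.1 ∧ ρ a p.1.2 < ρ a p.2.2 ∧ ∃ d ∈ L a, hd a.1.1 d = p.2.1 ∧
        ∃ f ∈ M a, tl a.1.1 f = p.2.2 ∧ rv d ≠ f ∧ Fb a.1.1 (N a) p.1.1 (tl a.1.1 d) p.1.2 (hd a.1.1 f)),
      by fun_prop, fun a p => by rw [List.mem_filter, decide_eq_true_eq]; rfl⟩
  refine InP.of_iff (InP.of_decide (i := fun _ => inferInstance) (show PT fun a : Inp => decide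
    (rb a.1.1 (Dl a.1.1) a.1.2.1 a.1.2.2 → rb a.1.1 (Dl a.1.1) a.1.2.2 a.1.2.1 → ∃ q ∈ W a ×ˢ W a,
      reachB (E a, (a.1.2.1, a.1.2.1), q) ∧ Fb a.1.1 (N a) q.1 a.1.2.2 q.2 a.1.2.2) by fun_prop)) fun a => ?_
  rw [pres_iff a (d2 a) (e2 a), rb_iff, rb_iff, Dl_eq]
  refine imp_congr_right fun a1 => imp_congr_right fun a2 => ?_
  have f1 : ∀ d ∈ Ti a.1.1 (δ a) a.1.2.1, R (tl a.1.1) (hd a.1.1) (bi a.1.1) a.1.2.2 (tl a.1.1 d) ∧
      ε a (hd a.1.1 d) ≤ ε a (tl a.1.1 d) + ln a.1.1 d := fun d h => ⟨a2.trans h.2.1, (e2 a _ ((a2.trans h.2.1).trans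
        (R.one h.1))).2 ((e2 a _ (a2.trans h.2.1)).1.snoc h.1)⟩
  have f2 : ∀ d ∈ Ti a.1.1 (ε a) a.1.2.2, R (tl a.1.1) (hd a.1.1) (bi a.1.1) a.1.2.1 (tl a.1.1 d) ∧
      δ a (hd a.1.1 d) ≤ δ a (tl a.1.1 d) + ln a.1.1 d := fun d h => ⟨a1.trans h.2.1, (d2 a _ ((a1.trans h.2.1).trans
        (R.one h.1))).2 ((d2 a _ (a1.trans h.2.1)).1.snoc h.1)⟩
  have f3 : {d | d ∈ N a} = {d ∈ Ti a.1.1 (δ a) a.1.2.1 | ρ a (tl a.1.1 d) = ρ a (hd a.1.1 d)} := by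
    ext; simp [n2, ← l2]
  have f4 : {d | d ∈ N a} = {d ∈ Ti a.1.1 (ε a) a.1.2.2 | ρ a (hd a.1.1 d) = ρ a (tl a.1.1 d)} := by
    rw [f3]; ext d; simp only [r2, mem_ofPred_eq]
    exact ⟨fun ⟨h, e⟩ => ⟨⟨h.1, (f1 d h).1, by have := h.2.2; omega⟩, e.symm⟩,
      fun ⟨h, e⟩ => ⟨⟨h.1, (f2 d h).1, by have := h.2.2; omega⟩, e.symm⟩⟩
  rw [game (p := (a.1.2.1, a.1.2.1)) (ρ := ρ a) (F := fun x z y w => Fb a.1.1 (N a) x z y w) hd_rv tl_rv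
    (fun d h => by have := h.2.2; have := (f1 d h).2; simp only [r2]; omega)
    (fun d h => by have := h.2.2; have := (f2 d h).2; simp only [r2]; omega)
    (fun x z y w => by rw [Fb_iff, ← f3, ← f4]), ← l2, ← m2]
  simp only [reachB_iff, c2]
  refine ⟨fun ⟨q, b1, b2⟩ => ?_, fun ⟨q, _, b1, b2⟩ => ⟨q, ReflTransGen.mono (fun _ _ h => h.2) _ _ b1, b2⟩⟩
  refine ⟨q, and_assoc.1 ⟨?_, b2⟩⟩
  clear b2
  induction b1 with
  | refl => exact ⟨by simp [w2], .refl⟩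
  | @tail p q _ b ih =>
    have : q ∈ W a ×ˢ W a := by
      have := List.mem_product.1 ih.1
      refine List.mem_product.2 ?_
      rcases b with ⟨-, b, d, b1, -, b2⟩ | ⟨-, b, d, b1, -, b2⟩ | ⟨-, -, -, d, b1, b2, f, b3, b4, -⟩
      · exact ⟨by rw [w2, ← b2]; simp only [List.mem_cons, List.mem_append]; exact .inr (.inl (List.mem_map_of_mem b1)), b ▸ this.2⟩
      · exact ⟨b ▸ this.1, by rw [w2, ← b2]; simp only [List.mem_cons, List.mem_append]; exact .inr (.inr (List.mem_map_of_mem b1))⟩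
      · rw [w2, ← b2, ← b4]; simp only [List.mem_cons, List.mem_append]
        exact ⟨.inr (.inl (List.mem_map_of_mem b1)), .inr (.inr (List.mem_map_of_mem b3))⟩
    exact ⟨this, ih.2.tail ⟨List.mem_product.2 ⟨ih.1, this⟩, b⟩⟩

end Pool.Agent.H.MP_bc7fec_lc
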