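import Pool.Agent.H.MP_bc7fec_lc.Defs

namespace Pool.Agent.H.MP_bc7fec_lc

open Relation Set

variable {D V : Type}

def R (t h : D → V) (S : Set D) : V → V → Prop := ReflTransGen fun a b => ∃ d ∈ S, t d = a ∧ h d = b

section
variable {t h : D → V} {S S' : Set D} {x y z : V}

theorem R.mono (e : R t h S x y) (s : S ⊆ S') : R t h S' x y :=
  by induction e with
  | refl => exact .refl
  | tail _ b ih => obtain ⟨d, a, b⟩ := b; exact ih.tail ⟨d, s a, b⟩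
theorem R.swap (e : R t h S x y) : R h t S y x :=
  by induction e with
  | refl => exact .refl
  | tail _ b ih => obtain ⟨d, a, b⟩ := b; exact .head ⟨d, a, b.symm⟩ ih
theorem R.one {d} (a : d ∈ S) : R t h S (t d) (h d) := ReflTransGen.single ⟨d, a, rfl, rfl⟩
theorem R.le {ρ : V → ℤ} (m : ∀ d ∈ S, ρ (t d) ≤ ρ (h d)) (e : R t h S x y) : ρ x ≤ ρ y := by
  induction e with
  | refl => rfl
  | tail _ b ih => obtain ⟨d, a, rfl, rfl⟩ := b; exact ih.trans (m d a)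
theorem R.eq {ρ : V → ℤ} (m : ∀ d ∈ S, ρ (t d) = ρ (h d)) (e : R t h S x y) : ρ x = ρ y :=
  (e.le fun d a => (m d a).le).antisymm (e.swap.le fun d a => (m d a).ge)
theorem R.res (e : R t h S x y) : R t h {d ∈ S | R t h S x (t d)} x y := by
  induction e with
  | refl => exact .refl
  | tail c b ih => obtain ⟨d, a, rfl, rfl⟩ := b; exact ih.tail ⟨d, ⟨a, c⟩, rfl, rfl⟩

theorem R.split {ρ : V → ℤ} (m : ∀ d ∈ S, ρ (t d) ≤ ρ (h d)) (e : R t h S x y) :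
    R t h {d ∈ S | ρ (t d) = ρ (h d)} x y ∨ ∃ d ∈ S, R t h {d ∈ S | ρ (t d) = ρ (h d)} x (t d) ∧ ρ (t d) < ρ (h d) ∧
      R t h S (h d) y := by
  induction e with
  | refl => exact .inl .refl
  | tail c b ih =>
    obtain ⟨d, a, rfl, rfl⟩ := b
    rcases ih with i | ⟨f, i, j, k, l⟩
    · exact (m d a).eq_or_lt.imp (fun q => i.tail ⟨d, ⟨a, q⟩, rfl, rfl⟩) fun q => ⟨d, a, i, q, .refl⟩
    · exact .inr ⟨f, i, j, k, l.tail ⟨d, a, rfl, rfl⟩⟩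

theorem R.path {r : D → D} (r1 : ∀ d, t (r d) = h d) (r2 : ∀ d, h (r d) = t d) (e : R t h S x y) : ∃ P ⊆ S, R t h P x y ∧
    (∀ d ∈ P, r d ∉ P) ∧ ∀ d ∈ P, ∀ f ∈ P, d ≠ f → R t h P (h d) (t f) ∨ R t h P (h f) (t d) := by
  classical
  let N : ℕ → V → Prop := fun n v => Wk t h (fun _ => 1) S x v n
  have h1 : ∃ n, N n y := by
    induction e with
    | refl => exact ⟨0, .nil⟩
    | tail _ b ih => obtain ⟨d, a, rfl, rfl⟩ := b; obtain ⟨n, i⟩ := ih; exact ⟨_, i.snoc a⟩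
  have h2 : ∀ n y, N n y → (∀ m, N m y → n ≤ m) → ∃ P ⊆ S, R t h P x y ∧ (∀ d ∈ P, R t h P (h d) y ∧ ∃ k, N k (t d) ∧
      ∀ m, N m (h d) → k < m) ∧ ∀ d ∈ P, ∀ f ∈ P, d ≠ f → R t h P (h d) (t f) ∨ R t h P (h f) (t d) := by
    intro n y a b
    induction a with
    | nil => exact ⟨∅, by simp, .refl, by simp⟩
    | @snoc w d a c ih =>
      obtain ⟨P, p1, p2, p3, p4⟩ := ih fun m q => by have := b _ (q.snoc c); omega
      have s := subset_insert d P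
      refine ⟨insert d P, insert_subset c p1, (p2.mono s).tail ⟨d, mem_insert _ _, rfl, rfl⟩, forall_mem_insert.2
        ⟨⟨.refl, w, a, b⟩, fun f q => ⟨((p3 f q).1.mono s).tail ⟨d, mem_insert _ _, rfl, rfl⟩, (p3 f q).2⟩⟩, ?_⟩
      rintro f (rfl | q) g (rfl | u) n
      exacts [(n rfl).elim, .inr ((p3 g u).1.mono s), .inl ((p3 f q).1.mono s), (p4 f q g u n).imp (·.mono s) (·.mono s)]
  obtain ⟨P, p1, p2, p3, p4⟩ := h2 _ y (Nat.find_spec h1) fun m => Nat.find_min' h1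
  refine ⟨P, p1, p2, fun d a b => ?_, p4⟩
  obtain ⟨k, k1, k2⟩ := (p3 d a).2
  obtain ⟨m, m1, m2⟩ := (p3 _ b).2
  have := k2 m (r1 d ▸ m1)
  have := m2 k ((r2 d).symm ▸ k1)
  omega

theorem cut {r : D → D} (r0 : ∀ d, r (r d) = d) (r1 : ∀ d, t (r d) = h d) (r2 : ∀ d, h (r d) = t d) {P B : Set D}
    (p1 : P ⊆ S) (p2 : ∀ d ∈ P, r d ∉ P) (p3 : ∀ d ∈ P, ∀ f ∈ P, d ≠ f → R t h P (h d) (t f) ∨ R t h P (h f) (t d))
    (hB : B ⊆ P) (e : R t h S x y) (n : ∀ d ∈ B, R t h (S \ {r d}) x y) : R t h {d ∈ S | r d ∉ B} x y := by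
  have k : ∀ T ⊆ S, R t h T x y → R t h {d ∈ S | r d ∉ B} x y ∨ ∃ d ∈ T, r d ∈ B ∧ R t h {d ∈ S | r d ∉ B} x (t d) ∧
      ¬ R t h {d ∈ S | r d ∉ B} x (h d) := fun T s e => by
    clear n
    induction e with
    | refl => exact .inl .refl
    | tail c b ih =>
      obtain ⟨d, a, rfl, rfl⟩ := b
      by_cases q : R t h {d ∈ S | r d ∉ B} x (h d)
      · exact .inl q
      exact .inr ((ih (R.mono c s)).elim (fun i => ⟨d, a, by_contra fun m => q (i.tail ⟨d, ⟨s a, m⟩, rfl, rfl⟩), i, q⟩) id)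
  refine (k S le_rfl e).elim id fun ⟨d, a, b, c, f⟩ => (k _ sdiff_subset (n _ b)).elim id fun ⟨g, a', b', c', f'⟩ => ?_
  have s : P ⊆ {d ∈ S | r d ∉ B} := fun d a => ⟨p1 a, fun b => p2 d a (hB b)⟩
  rcases p3 _ (hB b) _ (hB b') (fun q => a'.2 (by rw [q, r0]; rfl)) with q | q <;> rw [r1, r2] at q
  exacts [(f' (c.trans (q.mono s))).elim, (f (c'.trans (q.mono s))).elim]

theorem two {r : D → D} (r0 : ∀ d, r (r d) = d) (r1 : ∀ d, t (r d) = h d) (r2 : ∀ d, h (r d) = t d) {w : V} :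
    (∃ P ⊆ S, ∃ Q ⊆ S, R t h P x z ∧ R t h Q w y ∧ ∀ d ∈ P, r d ∉ Q) ↔
      R t h S x z ∧ R t h S w y ∧ ∀ d ∈ S, R t h (S \ {d}) x z ∨ R t h (S \ {r d}) w y := by
  refine ⟨fun ⟨P, a, Q, b, c, e, f⟩ => ⟨c.mono a, e.mono b, fun d _ => ?_⟩, fun ⟨a, b, c⟩ => ?_⟩
  · by_cases q : d ∈ P
    exacts [.inr (e.mono (subset_sdiff_singleton b (f d q))), .inl (c.mono (subset_sdiff_singleton a q))]
  obtain ⟨Q, q1, q2, q3, q4⟩ := b.path r1 r2
  obtain ⟨P, p1, p2, p3, p4⟩ := (cut r0 r1 r2 q1 q3 q4 (B := {d ∈ Q | ¬ R t h (S \ {d}) w y}) (sep_subset _ _) a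
    fun d e => by
      by_cases m : r d ∈ S
      exacts [(c _ m).resolve_right (by rw [r0]; exact e.2), a.mono (subset_sdiff_singleton le_rfl m)]).path r1 r2
  have p5 := p1.trans (sep_subset _ _)
  refine ⟨P, p5, _, sep_subset _ _, p2, cut r0 r1 r2 p5 p3 p4 le_rfl b fun d e => by_contra fun n => (p1 e).2 ⟨?_, n⟩,
    fun d e f => f.2 (by rwa [r0])⟩
  exact by_contra fun m => n (q2.mono (subset_sdiff_singleton q1 m))
end

variable (t₁ h₁ t₂ h₂ : D → V) (A₁ A₂ : Set D) (r : D → D) (ρ : V → ℤ)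

def Gd (x z y w : V) : Prop := ∃ P ⊆ A₁, ∃ Q ⊆ A₂, R t₁ h₁ P x z ∧ R t₂ h₂ Q y w ∧ ∀ d ∈ P, r d ∉ Q

def Mv (F : V → V → V → V → Prop) (p q : V × V) : Prop :=
  (ρ p.1 < ρ p.2 ∧ q.2 = p.2 ∧ ∃ d ∈ A₁, t₁ d = p.1 ∧ h₁ d = q.1) ∨
  (ρ p.2 < ρ p.1 ∧ q.1 = p.1 ∧ ∃ d ∈ A₂, t₂ d = p.2 ∧ h₂ d = q.2) ∨
  (ρ p.1 = ρ p.2 ∧ ρ p.1 < ρ q.1 ∧ ρ p.2 < ρ q.2 ∧ ∃ d ∈ A₁, h₁ d = q.1 ∧ ∃ f ∈ A₂, h₂ f = q.2 ∧ r d ≠ f ∧
    F p.1 (t₁ d) p.2 (t₂ f))

variable {t₁ h₁ t₂ h₂ A₁ A₂ r ρ}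

theorem game (r1 : ∀ d, t₂ (r d) = t₁ d) (r2 : ∀ d, h₂ (r d) = h₁ d) (m1 : ∀ d ∈ A₁, ρ (t₁ d) ≤ ρ (h₁ d))
    (m2 : ∀ d ∈ A₂, ρ (t₂ d) ≤ ρ (h₂ d)) {F : V → V → V → V → Prop} (hF : ∀ x z y w, F x z y w ↔
      Gd t₁ h₁ t₂ h₂ {d ∈ A₁ | ρ (t₁ d) = ρ (h₁ d)} {d ∈ A₂ | ρ (t₂ d) = ρ (h₂ d)} r x z y w) (e : V) (p : V × V) :
    Gd t₁ h₁ t₂ h₂ A₁ A₂ r p.1 e p.2 e ↔ ∃ q, ReflTransGen (Mv t₁ h₁ t₂ h₂ A₁ A₂ r ρ F) p q ∧ F q.1 e q.2 e := by
  refine ⟨?_, ?_⟩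
  · rintro ⟨P, a, Q, b, c, f, g⟩
    have n1 := fun d k => m1 d (a k)
    have n2 := fun d k => m2 d (b k)
    have fl : ∀ {x z y w}, R t₁ h₁ {d ∈ P | ρ (t₁ d) = ρ (h₁ d)} x z → R t₂ h₂ {d ∈ Q | ρ (t₂ d) = ρ (h₂ d)} y w →
      F x z y w := fun i j => (hF ..).2 ⟨_, fun d k => ⟨a k.1, k.2⟩, _, fun d k => ⟨b k.1, k.2⟩, i, j, fun d k l => g d k.1 l.1⟩
    obtain ⟨x, y⟩ := p
    dsimp only at c f
    induction hn : (ρ e - ρ x + (ρ e - ρ y)).toNat using Nat.strong_induction_on generalizing x y with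
    | _ n ih =>
    have l1 := c.le n1
    have l2 := f.le n2
    have go : ∀ u v, ReflTransGen (Mv t₁ h₁ t₂ h₂ A₁ A₂ r ρ F) (x, y) (u, v) → R t₁ h₁ P u e → R t₂ h₂ Q v e →
        ρ x + ρ y < ρ u + ρ v → ∃ q, ReflTransGen (Mv t₁ h₁ t₂ h₂ A₁ A₂ r ρ F) (x, y) q ∧ F q.1 e q.2 e :=
      fun u v i j k l => by
        have := j.le n1
        have := k.le n2
        obtain ⟨q, v, w⟩ := ih (ρ e - ρ u + (ρ e - ρ v)).toNat (by omega) u v j k rfl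
        exact ⟨q, i.trans v, w⟩
    have s1 := (c.split n1).imp_left fun i => And.intro i (i.eq fun d k => k.2)
    have s2 := (f.split n2).imp_left fun i => And.intro i (i.eq fun d k => k.2)
    rcases lt_trichotomy (ρ x) (ρ y) with q | q | q
    · obtain ⟨d, d1, d2, d3, d4⟩ := s1.resolve_left (by omega)
      have d5 := d2.eq fun d k => k.2
      refine go (h₁ d) y (.tail (b := (t₁ d, y)) ?_ (.inl ⟨d5 ▸ q, rfl, d, a d1, rfl, rfl⟩)) d4 f (by omega)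
      generalize t₁ d = z at d2
      induction d2 with
      | refl => rfl
      | tail i j ih => obtain ⟨k, k1, k2⟩ := j; exact ih.tail (.inl ⟨R.eq (fun d k => k.2) i ▸ q, rfl, k, a k1.1, k2⟩)
    · rcases s1 with i | ⟨d, d1, d2, d3, d4⟩ <;> rcases s2 with j | ⟨k, k1, k2, k3, k4⟩
      · exact ⟨_, .refl, fl i.1 j.1⟩
      · have := k2.eq fun d k => k.2; have := k4.le n2; omega
      · have := d2.eq fun d k => k.2; have := d4.le n1; omega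
      have d5 := d2.eq fun d k => k.2
      have k5 := k2.eq fun d k => k.2
      exact go (h₁ d) (h₂ k) (.single (.inr (.inr ⟨q, d5 ▸ d3, k5 ▸ k3, d, a d1, rfl, k, b k1, rfl, fun m => g d d1 (m ▸ k1),
        fl d2 k2⟩))) d4 k4 (by omega)
    · obtain ⟨d, d1, d2, d3, d4⟩ := s2.resolve_left (by omega)
      have d5 := d2.eq fun d k => k.2
      refine go x (h₂ d) (.tail (b := (x, t₂ d)) ?_ (.inr (.inl ⟨d5 ▸ q, rfl, d, b d1, rfl, rfl⟩))) c d4 (by omega)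
      generalize t₂ d = z at d2
      induction d2 with
      | refl => rfl
      | tail i j ih => obtain ⟨k, k1, k2⟩ := j; exact ih.tail (.inr (.inl ⟨R.eq (fun d k => k.2) i ▸ q, rfl, k, b k1.1, k2⟩))
  · rintro ⟨q, a, b⟩
    induction a using ReflTransGen.head_induction_on with
    | refl =>
      obtain ⟨P, a, Q, b, c⟩ := (hF ..).1 b
      exact ⟨P, a.trans (sep_subset _ _), Q, b.trans (sep_subset _ _), c⟩
    | @head p u v w ih =>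
      obtain ⟨P, a, Q, b, c, f, g⟩ := ih
      have n1 : ∀ d ∈ {d ∈ P | R t₁ h₁ P u.1 (t₁ d)}, ρ u.1 ≤ ρ (t₁ d) := fun d k => k.2.le fun d k => m1 d (a k)
      have n2 : ∀ d ∈ {d ∈ Q | R t₂ h₂ Q u.2 (t₂ d)}, ρ u.2 ≤ ρ (t₂ d) := fun d k => k.2.le fun d k => m2 d (b k)
      rcases v with ⟨v1, v2, d, d1, d2, d3⟩ | ⟨v1, v2, d, d1, d2, d3⟩ | ⟨v1, v2, v3, d, d1, d2, k, k1, k2, k3, k4⟩
      · refine ⟨insert d P, insert_subset d1 a, _, (sep_subset _ _).trans b, .head ⟨d, mem_insert _ _, d2, d3⟩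
          (c.mono (subset_insert _ _)), v2 ▸ f.res, ?_⟩
        rintro l (rfl | l1) l2
        · have := n2 _ (v2 ▸ l2); rw [r1, d2, v2] at this; omega
        · exact g l l1 l2.1
      · refine ⟨_, (sep_subset _ _).trans a, insert d Q, insert_subset d1 b, v2 ▸ c.res, .head ⟨d, mem_insert _ _, d2, d3⟩
          (f.mono (subset_insert _ _)), ?_⟩
        rintro l l1 (rfl | l2)
        · have := n1 _ (v2 ▸ l1); rw [← r1, d2, v2] at this; omega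
        · exact g l l1.1 l2
      · obtain ⟨P', a', Q', b', c', f', g'⟩ := (hF ..).1 k4
        have n3 : ∀ d ∈ {d ∈ P' | R t₁ h₁ P' p.1 (t₁ d)}, ρ p.1 = ρ (t₁ d) ∧ ρ (t₁ d) = ρ (h₁ d) := fun d k =>
          ⟨k.2.eq fun d k => (a' k).2, (a' k.1).2⟩
        have n4 : ∀ d ∈ {d ∈ Q' | R t₂ h₂ Q' p.2 (t₂ d)}, ρ p.2 = ρ (t₂ d) ∧ ρ (t₂ d) = ρ (h₂ d) := fun d k =>
          ⟨k.2.eq fun d k => (b' k).2, (b' k.1).2⟩
        have n5 := c'.eq fun d k => (a' k).2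
        have n6 := f'.eq fun d k => (b' k).2
        refine ⟨_ ∪ insert d _, union_subset ((sep_subset _ _).trans (a'.trans (sep_subset _ _)))
          (insert_subset d1 ((sep_subset _ _).trans a)), _ ∪ insert k _, union_subset ((sep_subset _ _).trans
          (b'.trans (sep_subset _ _))) (insert_subset k1 ((sep_subset _ _).trans b)),
          (c'.res.mono subset_union_left).trans (.head ⟨d, .inr (mem_insert _ _), rfl, d2⟩
            (c.res.mono ((subset_insert _ _).trans subset_union_right))),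
          (f'.res.mono subset_union_left).trans (.head ⟨k, .inr (mem_insert _ _), rfl, k2⟩
            (f.res.mono ((subset_insert _ _).trans subset_union_right))), ?_⟩
        have := r1; have := r2
        rintro l (l1 | rfl | l1) (l2 | l2 | l2)
        exacts [g' l l1.1 l2.1, by grind, by grind, by grind, k3 l2, by grind, by grind, by grind, g l l1.1 l2.1]

end Pool.Agent.H.MP_bc7fec_lc
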