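import Pool.Agent.H.MP_bc7fec_lc.A
import Pool.Agent.Lib.helper22.CXReach

namespace Pool.Agent.H.MP_bc7fec_lc

open Relation Set Pool.Agent.Lib.CX Classical Function

section
variable {D V : Type} {t h : D → V} {l : D → ℕ} {S S' : Set D} {s v : V}

theorem Wk.r {M : Type} [AddMonoid M] {l : D → M} {w} (e : Wk t h l S s v w) : R t h S s v := by
  induction e with
  | nil => exact .refl
  | snoc _ a ih => exact ih.tail ⟨_, a, rfl, rfl⟩

theorem R.wk (e : R t h S s v) : ∃ w, Wk t h l S s v w := by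
  induction e with
  | refl => exact ⟨_, .nil⟩
  | tail _ b ih => obtain ⟨d, a, rfl, rfl⟩ := b; obtain ⟨w, i⟩ := ih; exact ⟨_, i.snoc a⟩

theorem Wk.mono {M : Type} [AddMonoid M] {l : D → M} {w} (e : Wk t h l S s v w) (q : S ⊆ S') : Wk t h l S' s v w := by
  induction e with
  | nil => exact .nil
  | snoc _ a ih => exact ih.snoc (q a)

theorem tight {δ : V → ℕ} (hδ : ∀ v, R t h S s v → IsLeast {w | Wk t h l S s v w} (δ v)) (q : S' ⊆ S) :
    Wk t h l S' s v (δ v) ↔ R t h {d ∈ S' | R t h S s (t d) ∧ δ (h d) = δ (t d) + l d} s v := by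
  refine ⟨fun e => ?_, fun e => ?_⟩
  · generalize hw : δ v = w at e
    induction e with
    | nil => exact .refl
    | @snoc w d a b ih =>
      have h1 := hδ _ (a.r.mono q)
      have h2 := (hδ _ ((a.snoc b).r.mono q)).2 (h1.1.snoc (q b))
      have h3 := h1.2 (a.mono q)
      exact (ih (by omega)).tail ⟨d, ⟨b, a.r.mono q, by omega⟩, rfl, rfl⟩
  · induction e with
    | refl => exact Nat.le_zero.1 ((hδ _ .refl).2 .nil) ▸ .nil
    | tail _ b ih => obtain ⟨d, a, rfl, rfl⟩ := b; exact a.2.2 ▸ ih.snoc a.1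
end

def mn (T : List (ℕ × ℕ)) (v : ℕ) : Option (ℕ × ℕ) := T.find? fun p => p.1 = v ∧ ∀ q ∈ T, q.1 = v → p.2 ≤ q.2

theorem mn_eq {T : List (ℕ × ℕ)} {v w : ℕ} (a : (v, w) ∈ T) (b : ∀ q ∈ T, q.1 = v → w ≤ q.2) : mn T v = some (v, w) := by
  cases e : mn T v with
  | none => simpa using (List.find?_eq_none.1 e _ a).elim (by simpa using b)
  | some p =>
    have h1 := List.find?_some e
    simp only [decide_eq_true_eq] at h1
    exact congrArg some (Prod.ext h1.1 ((h1.2 _ a rfl).antisymm (b _ (List.mem_of_find?_eq_some e) h1.1)))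

theorem bf {α D : Type} [Enc α] [Enc D] {L : α → List D} {t h l : α → D → ℕ} {s : α → ℕ} (hL : PT L)
    (ht : PT fun x : α × D => t x.1 x.2) (hh : PT fun x : α × D => h x.1 x.2) (hl : PT fun x : α × D => l x.1 x.2)
    (hs : PT s) : ∃ δ : α → ℕ → ℕ, (PT fun x : α × ℕ => δ x.1 x.2) ∧ ∀ a v, R (t a) (h a) {d | d ∈ L a} (s a) v →
      IsLeast {w | Wk (t a) (h a) (l a) {d | d ∈ L a} (s a) v w} (δ a v) := by
  let F := fun a (T : List (ℕ × ℕ)) => (s a, 0) :: (L a).filterMap fun d => (mn T (t a d)).map fun p => (h a d, p.2 + l a d)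
  have i1 : ∀ a k, ∀ p ∈ (F a)^[k] [], Wk (t a) (h a) (l a) {d | d ∈ L a} (s a) p.1 p.2 ∧
      p.1 ∈ s a :: (L a).map (h a) ∧ p.2 ≤ k * ((L a).map (l a)).sum := fun a k => by
    induction k with
    | zero => simp
    | succ k ih =>
      rw [iterate_succ_apply']
      refine List.forall_mem_cons.2 ⟨⟨.nil, by simp, by simp⟩, fun p hp => ?_⟩
      simp only [List.mem_filterMap, Option.map_eq_some_iff] at hp
      obtain ⟨d, a1, q, a2, rfl⟩ := hp
      have h1 := List.find?_some a2
      simp only [decide_eq_true_eq] at h1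
      obtain ⟨b1, -, b2⟩ := ih q (List.mem_of_find?_eq_some a2)
      have := List.le_sum_of_mem (List.mem_map_of_mem (f := l a) a1)
      exact ⟨(h1.1 ▸ b1).snoc a1, List.mem_cons_of_mem _ (List.mem_map_of_mem a1), by rw [add_mul]; simp only; omega⟩
  have hT : PT fun a => (F a)^[(L a).length + 2] [] := by
    have h1 : PT fun a => s a :: (L a).map (h a) := by fun_prop
    have h2 : PT fun a => ((L a).length + 2) * ((L a).map (l a)).sum := by fun_prop
    refine PT.iterate (B := fun a => ((L a).length + 1) * (size (s a :: (L a).map (h a)) +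
      size (((L a).length + 2) * ((L a).map (l a)).sum) + 1 + 1) + 2) (by simp only [F, mn]; fun_prop) (by fun_prop)
      (by fun_prop) (by fun_prop) ((((PB.length hL).add (.const 1)).mul (((PB.size h1).add (PB.size h2)).add
        (.const 1) |>.add (.const 1))).add (.const 2)) fun a k hk => (size_list_le fun p hp => ?_).trans
        (Nat.add_le_add_right (Nat.mul_le_mul_right _ ?_) _)
    · obtain ⟨-, b1, b2⟩ := i1 a k p hp
      exact (size_pair p.1 p.2).trans_le (Nat.succ_le_succ (add_le_add (size_mem b1)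
        (size_nat_mono (b2.trans (Nat.mul_le_mul_right _ hk)))))
    · cases k with
      | zero => simp
      | succ k => rw [iterate_succ_apply']; exact Nat.succ_le_succ (List.length_filterMap_le _ _)
  refine ⟨fun a v => ((mn ((F a)^[(L a).length + 2] []) v).getD (0, 0)).2, (show PT fun x : List (ℕ × ℕ) × ℕ =>
    ((mn x.1 x.2).getD (0, 0)).2 by unfold mn; fun_prop).comp ((hT.comp PT.fst').pair PT.snd'), fun a v hv => ?_⟩
  let δ := fun v => sInf {w | Wk (t a) (h a) (l a) {d | d ∈ L a} (s a) v w}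
  have hδ : ∀ v, R (t a) (h a) {d | d ∈ L a} (s a) v → IsLeast {w | Wk (t a) (h a) (l a) {d | d ∈ L a} (s a) v w} (δ v) :=
    fun v h => ⟨Nat.sInf_mem h.wk, fun _ => Nat.sInf_le⟩
  let G := (L a).map fun d => if R (t a) (h a) {d | d ∈ L a} (s a) (t a d) ∧ δ (h a d) = δ (t a d) + l a d then
    (t a d, h a d) else (s a, s a)
  have i2 : ∀ k v, (v, δ v) ∈ (F a)^[k] [] → mn ((F a)^[k] []) v = some (v, δ v) := fun k v e =>
    mn_eq e fun q b c => Nat.sInf_le (c ▸ (i1 a k q b).1)
  have d0 : δ (s a) = 0 := Nat.le_zero.1 (Nat.sInf_le .nil)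
  have i3 : ∀ k, ∀ v ∈ (rstep G (s a))^[k] [s a], (v, δ v) ∈ (F a)^[k + 1] [] := fun k => by
    induction k with
    | zero => simp [F, d0]
    | succ k ih =>
      rw [iterate_succ_apply', iterate_succ_apply']
      refine List.forall_mem_cons.2 ⟨by simp [F, d0], fun v hv => ?_⟩
      simp only [List.mem_map, List.mem_filter, G, decide_eq_true_eq] at hv
      obtain ⟨_, ⟨⟨d, a1, rfl⟩, a2⟩, rfl⟩ := hv
      split_ifs at a2 ⊢ with q
      · exact List.mem_cons_of_mem _ (List.mem_filterMap.2 ⟨d, a1, by rw [i2 _ _ (ih _ a2), q.2]; rfl⟩)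
      · simp [F, d0]
  have i4 : reachB (G, s a, v) := by
    rw [reachB_iff]
    have := (tight hδ le_rfl).1 (hδ v hv).1
    clear hv
    induction this with
    | refl => rfl
    | tail _ b ih => obtain ⟨d, c, rfl, rfl⟩ := b; exact ih.tail (List.mem_map.2 ⟨d, c.1, if_pos c.2⟩)
  have := i3 _ v (of_decide_eq_true i4)
  rw [List.length_map] at this
  beta_reduce
  rw [i2 _ _ this]
  exact hδ v hv

end Pool.Agent.H.MP_bc7fec_lc
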