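import Pool.Agent.Lib.lead.CXRat

namespace Pool.Agent.H.MP_bc7fec_lc

/-- walks along the darts in `S` (tail `t`, head `h`, length `l`), with their total length -/
inductive Wk {D V M : Type} [AddMonoid M] (t h : D → V) (l : D → M) (S : Set D) (x : V) : V → M → Prop
  | nil : Wk t h l S x x 0
  | snoc {w d} : Wk t h l S x (t d) w → d ∈ S → Wk t h l S x (h d) (w + l d)

/-- a mixed graph: a list of links (end, end, undirected or not, length) -/
abbrev MG := List (ℕ × ℕ × Bool × ℚ)

def lk (G : MG) (i : ℕ) : ℕ × ℕ × Bool × ℚ := G.getD i (0, 0, false, 0)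
/-- the dart `(i, false)` runs along link `i` from its first end to its second end, `(i, true)` backwards -/
def tl (G : MG) (d : ℕ × Bool) : ℕ := if d.2 then (lk G d.1).2.1 else (lk G d.1).1
def hd (G : MG) (d : ℕ × Bool) : ℕ := if d.2 then (lk G d.1).1 else (lk G d.1).2.1
def len (G : MG) (d : ℕ × Bool) : ℚ := (lk G d.1).2.2.2

/-- all arcs, and both directions of every undirected edge -/
def bi (G : MG) : Set (ℕ × Bool) := {d | d.1 < G.length ∧ (d.2 → (lk G d.1).2.2.1)}
/-- all arcs, and one direction (chosen by `o`) of every undirected edge -/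
def ori (G : MG) (o : ℕ → Bool) : Set (ℕ × Bool) := {d | d.1 < G.length ∧ d.2 = ((lk G d.1).2.2.1 && o d.1)}

/-- the distance from `x` to `y` along the darts in `S` -/
noncomputable def dist (G : MG) (S : Set (ℕ × Bool)) (x y : ℕ) : EReal :=
  ⨅ (q : ℚ) (_ : Wk (tl G) (hd G) (len G) S x y q), ((q : ℝ) : EReal)

/-- inputs: a mixed graph with non-negative lengths and two vertices -/
abbrev Inp := {a : MG × ℕ × ℕ // ∀ e ∈ a.1, 0 ≤ e.2.2.2}

def Pres (a : Inp) : Prop := ∃ o, dist a.1.1 (ori a.1.1 o) a.1.2.1 a.1.2.2 = dist a.1.1 (bi a.1.1) a.1.2.1 a.1.2.2 ∧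
  dist a.1.1 (ori a.1.1 o) a.1.2.2 a.1.2.1 = dist a.1.1 (bi a.1.1) a.1.2.2 a.1.2.1

end Pool.Agent.H.MP_bc7fec_lc
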